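import Pool.Agent.Y549.SP.Fin2
import Pool.Agent.Y549.SP.CNT2
import Pool.Agent.Y549.SP.BAD3
import Pool.Agent.Y549.SP.BL
import Pool.Agent.Y549.SP.LS3
import Pool.Agent.Y549.SP.PJ
import Pool.Agent.Y549.SP.NUM2
import Pool.Agent.Y549.SP.SPL

set_option autoImplicit false

/-! The counting theorem `S_CNT2` of helper549's project SP. -/

namespace Pool.Agent.X35.HV

open Pool.Agent.Y549.SP

lemma bad2 (h : S_BAD3) : S_BAD2 := by
  intro A ρ κ η ε h1 h2 h3 h4 h5 h6 h7 h8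
  obtain ⟨c, K, hc, hK, h9⟩ := h A ρ κ η ε h1 h2 h3 h4 h5 h6 h7 h8
  refine ⟨c, K, hc, hK, fun Q X y a1 a2 a3 a4 => ?_⟩
  have h10 := h9 (-1) Q X y a1 a2 a3 a4
  have e : ∀ m : ℕ, sd Q (-1) m y = ss Q m y := by
    intro m
    unfold sd ss
    refine Finset.sum_congr rfl fun p _ => ?_
    congr 1
    ring
  simpa only [e] using h10

lemma cnt2 : S_CNT2 := CNT2.main (bad2 (BAD3.main BL.main (LS3.main PJ.main) NUM2.main)) SPL.main

end Pool.Agent.X35.HV
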